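import Mathlib

/-!
Mixing strongly aperiodic SFT on the lamplighter group: data, the half rule and the coherence lemma.
-/

namespace Pool.Agent.H5.LL

/-- The lamp group of the auxiliary group `Q ≀ ℤ`. -/
abbrev Q := Fin 6 → ZMod 2

/-- The set of systems. -/
abbrev Sg := Fin 6

theorem Q.add_self (a : Q) : a + a = 0 := by
  funext i
  exact CharTwo.add_self_eq_zero (a i)

theorem Q.add_eq_zero_iff {a b : Q} : a + b = 0 ↔ a = b := by
  constructor
  · intro h
    have : a + b + b = b := by rw [h, zero_add]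
    rwa [add_assoc, Q.add_self, add_zero] at this
  · rintro rfl
    exact Q.add_self a

theorem Q.add_eq_iff {a b c : Q} : a + b = c ↔ a = c + b := by
  constructor
  · rintro rfl
    rw [add_assoc, Q.add_self, add_zero]
  · rintro rfl
    rw [add_assoc, Q.add_self, add_zero]

theorem Q.card : Fintype.card Q = 64 := by
  simp [Q, ZMod.card]

/-- The exceptional label. -/
def e0 : Q := fun _ => 1

theorem e0_ne : e0 ≠ 0 := by
  intro h
  have := congrFun h 0
  simp [e0] at this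

/-- The special labels `R = 0` and `E = e0`. -/
def SP (a : Q) : Prop := a = 0 ∨ a = e0

instance : DecidablePred SP := fun a => inferInstanceAs (Decidable (a = 0 ∨ a = e0))

/-- The data stored at a box. -/
structure Dat (K : Type) where
  S : Sg → Q × K
  T : Sg → Q × K
  C : Sg → Sg → K

/-- Exchange of the two trees. -/
def Dat.dual {K : Type} (D : Dat K) : Dat K := ⟨D.T, D.S, fun x y => D.C y x⟩

@[simp] theorem Dat.dual_S {K : Type} (D : Dat K) : D.dual.S = D.T := rfl
@[simp] theorem Dat.dual_T {K : Type} (D : Dat K) : D.dual.T = D.S := rfl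
@[simp] theorem Dat.dual_C {K : Type} (D : Dat K) (x y : Sg) : D.dual.C x y = D.C y x := rfl
@[simp] theorem Dat.dual_dual {K : Type} (D : Dat K) : D.dual.dual = D := rfl

/-- The half rule: parent `P`, children `L i`, labels `i + α x`. -/
structure Half {K : Type} (ρv ρs : K → K → Prop) (α : Sg → Q) (P : Dat K) (L : Q → Dat K) :
    Prop where
  h0 : ∀ i x x', SP (i + α x) → SP (i + α x') → x = x'
  h1 : ∀ i x, ¬ SP (i + α x) → ((L i).S x).1 = i + α x
  h2S : ∀ i x, i + α x = 0 → (L i).S x = P.S x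
  h2C : ∀ i x y, i + α x = 0 → (L i).C x y = P.C x y
  h3 : ∀ i x y, ¬ SP (i + α x) → (L i).C x y = ((L i).T y).2
  h4 : ∀ i y, i + α y ≠ e0 → ((L i).T y).1 = (P.T y).1 ∧ ρv ((L i).T y).2 (P.T y).2
  h5 : ∀ i i' y, i + α y ≠ e0 → i' + α y ≠ e0 → ρs ((L i).T y).2 ((L i').T y).2

/-- Choice of an element avoiding a small set. -/
theorem exists_avoid (s : Finset Q) (hs : s.card < 64) : ∃ i : Q, i ∉ s := by
  by_contra h
  push Not at h
  have h1 : (Finset.univ : Finset Q) ⊆ s := fun i _ => h i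
  have h2 := Finset.card_le_card h1
  rw [Finset.card_univ, Q.card] at h2
  omega

theorem exists_avoid4 (a b c d : Q) : ∃ i : Q, i ≠ a ∧ i ≠ b ∧ i ≠ c ∧ i ≠ d := by
  obtain ⟨i, hi⟩ := exists_avoid {a, b, c, d} (lt_of_le_of_lt Finset.card_le_four (by norm_num))
  simp only [Finset.mem_insert, Finset.mem_singleton, not_or] at hi
  exact ⟨i, hi.1, hi.2.1, hi.2.2.1, hi.2.2.2⟩

theorem exists_avoid' (s : Finset Q) (hs : s.card ≤ 63) : ∃ i : Q, ∀ a ∈ s, i ≠ a := by
  obtain ⟨i, hi⟩ := exists_avoid s (by omega)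
  exact ⟨i, fun a ha h => hi (h ▸ ha)⟩

theorem not_SP_iff {a b : Q} : ¬ SP (a + b) ↔ a ≠ b ∧ a ≠ b + e0 := by
  unfold SP
  rw [not_or, Q.add_eq_zero_iff, Q.add_eq_iff, add_comm e0 b]

section links

/-- A function `b` without two disjoint pairs of points with different values is constant off one
point. -/
theorem const_off (b : Q → Q)
    (h : ∀ i1 i2 i3 i4, i1 ≠ i3 → i1 ≠ i4 → i2 ≠ i3 → i2 ≠ i4 → b i1 ≠ b i2 → b i3 ≠ b i4 →
      False) :
    ∃ i0 β, ∀ i, i ≠ i0 → b i = β := by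
  by_cases hc : ∀ i, b i = b 0
  · exact ⟨0, b 0, fun i _ => hc i⟩
  push Not at hc
  obtain ⟨i1, h1⟩ := hc
  obtain ⟨i3, h31, h32, -, -⟩ := exists_avoid4 i1 0 0 0
  have hother : ∀ i, i ≠ i1 → i ≠ 0 → b i = b i3 := by
    intro i hi1 hi0
    by_contra hne
    exact h i1 0 i i3 hi1.symm h31.symm hi0.symm h32.symm h1 hne
  by_cases h13 : b i1 = b i3
  · refine ⟨0, b i3, fun i hi => ?_⟩
    by_cases hi1 : i = i1
    · rw [hi1, h13]
    · exact hother i hi1 hi
  · obtain ⟨i4, h41, h42, h43, -⟩ := exists_avoid4 i1 0 i3 0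
    have h4 : b i4 = b i3 := hother i4 h41 h42
    by_cases h03 : b 0 = b i3
    · refine ⟨i1, b i3, fun i hi => ?_⟩
      by_cases hi0 : i = 0
      · rw [hi0, h03]
      · exact hother i hi hi0
    · exfalso
      refine h i1 i3 0 i4 ?_ h41.symm h32 h43.symm h13 ?_
      · rintro rfl
        exact h1 rfl
      · rw [h4]
        exact h03

theorem star_aux (a b : Q → Q) (s' : Q → Q → Q) (u' : Q → Q)
    (F1 : ∀ i j, j + b i ≠ e0 → s' i j = u' i)
    (F2 : ∀ i j, ¬ SP (i + a j) → s' i j = i + a j)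
    (j j' : Q) (hjj : a j ≠ a j') (i : Q) (h1 : i ≠ a j) (h2 : i ≠ a j + e0) (h3 : i ≠ a j')
    (h4 : i ≠ a j' + e0) : b i = e0 + j ∨ b i = e0 + j' := by
  by_contra hcon
  push Not at hcon
  have e1 : j + b i ≠ e0 := by
    intro h
    apply hcon.1
    rw [add_comm] at h
    rw [Q.add_eq_iff] at h
    exact h
  have e2 : j' + b i ≠ e0 := by
    intro h
    apply hcon.2
    rw [add_comm] at h
    rw [Q.add_eq_iff] at h
    exact h
  have e3 := F1 i j e1
  have e4 := F1 i j' e2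
  rw [F2 i j (not_SP_iff.2 ⟨h1, h2⟩)] at e3
  rw [F2 i j' (not_SP_iff.2 ⟨h3, h4⟩)] at e4
  apply hjj
  rw [← e4] at e3
  exact add_left_cancel e3

theorem no_pairs (a b : Q → Q) (s' : Q → Q → Q) (u' : Q → Q)
    (F1 : ∀ i j, j + b i ≠ e0 → s' i j = u' i)
    (F2 : ∀ i j, ¬ SP (i + a j) → s' i j = i + a j)
    (i1 i2 i3 i4 : Q) (h13 : i1 ≠ i3) (h14 : i1 ≠ i4) (h23 : i2 ≠ i3) (h24 : i2 ≠ i4)
    (h12 : a i1 ≠ a i2) (h34 : a i3 ≠ a i4) : False := by
  obtain ⟨i, hi⟩ := exists_avoid' ({a i1, a i1 + e0, a i2, a i2 + e0} ∪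
    {a i3, a i3 + e0, a i4, a i4 + e0}) (by
      refine (Finset.card_union_le _ _).trans ?_
      have := Finset.card_le_four (a := a i1) (b := a i1 + e0) (c := a i2) (d := a i2 + e0)
      have := Finset.card_le_four (a := a i3) (b := a i3 + e0) (c := a i4) (d := a i4 + e0)
      omega)
  have k1 := star_aux a b s' u' F1 F2 i1 i2 h12 i (hi _ (by simp)) (hi _ (by simp))
    (hi _ (by simp)) (hi _ (by simp))
  have k2 := star_aux a b s' u' F1 F2 i3 i4 h34 i (hi _ (by simp)) (hi _ (by simp))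
    (hi _ (by simp)) (hi _ (by simp))
  rcases k1 with k1 | k1 <;> rcases k2 with k2 | k2 <;> rw [k1] at k2 <;>
    have k3 := add_left_cancel k2
  · exact h13 k3
  · exact h14 k3
  · exact h23 k3
  · exact h24 k3

theorem exc_aux (a b : Q → Q) (s' : Q → Q → Q) (u' : Q → Q)
    (F1 : ∀ i j, j + b i ≠ e0 → s' i j = u' i)
    (F2 : ∀ i j, ¬ SP (i + a j) → s' i j = i + a j)
    (j0 α i0 β : Q) (ha : ∀ j, j ≠ j0 → a j = α) (hb : ∀ i, i ≠ i0 → b i = β) :
    ∀ j, j + β ≠ e0 → a j = α := by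
  intro j hj
  by_contra hne
  have hjj : j = j0 := by
    by_contra h
    exact hne (ha j h)
  subst hjj
  have key : ∀ j', j' ≠ j → β = e0 + j' := by
    intro j' hj'
    have h2 := ha j' hj'
    obtain ⟨i, hi⟩ := exists_avoid' ({a j, a j + e0, a j', a j' + e0} ∪ {i0}) (by
      refine (Finset.card_union_le _ _).trans ?_
      have := Finset.card_le_four (a := a j) (b := a j + e0) (c := a j') (d := a j' + e0)
      have := Finset.card_singleton i0
      omega)
    have k1 := star_aux a b s' u' F1 F2 j j' (by rw [h2]; exact hne) i (hi _ (by simp))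
      (hi _ (by simp)) (hi _ (by simp)) (hi _ (by simp))
    rw [hb i (hi _ (by simp))] at k1
    rcases k1 with k1 | k1
    · exfalso
      apply hj
      rw [k1, add_comm e0 j, ← add_assoc, Q.add_self, zero_add]
    · exact k1
  obtain ⟨j1, h11, -, -, -⟩ := exists_avoid4 j j j j
  obtain ⟨j2, h21, h22, -, -⟩ := exists_avoid4 j j1 j j
  have k1 := key j1 h11
  have k2 := key j2 h21
  rw [k1] at k2
  exact h22 (add_left_cancel k2).symm

/-- The combinatorial core: labels seen from different children agree off one exceptional child. -/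
theorem link_aux (a b : Q → Q) (s' : Q → Q → Q) (s : Q → Q → Q) (u' : Q → Q) (u : Q → Q)
    (F1 : ∀ i j, j + b i ≠ e0 → s' i j = u' i)
    (F2 : ∀ i j, ¬ SP (i + a j) → s' i j = i + a j)
    (F3 : ∀ i j, i + a j ≠ e0 → s i j = u j)
    (F4 : ∀ i j, ¬ SP (j + b i) → s i j = j + b i) :
    ∃ α β : Q, (∀ j, j + β ≠ e0 → a j = α) ∧ (∀ i, i + α ≠ e0 → b i = β) := by
  obtain ⟨j0, α, ha⟩ := const_off a (no_pairs a b s' u' F1 F2)
  obtain ⟨i0, β, hb⟩ := const_off b
    (no_pairs b a (fun j i => s i j) u (fun j i h => F3 i j h) (fun j i h => F4 i j h))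
  exact ⟨α, β, exc_aux a b s' u' F1 F2 j0 α i0 β ha hb,
    exc_aux b a (fun j i => s i j) u (fun j i h => F3 i j h) (fun j i h => F4 i j h)
      i0 β j0 α hb ha⟩

end links

/-- Half of the coherence lemma. -/
theorem half_coh {K : Type} {ρv1 ρs1 ρv2 ρs2 : K → K → Prop} (G : Q → Q → Dat K)
    (B Tt : Q → Dat K) (a b : Q → Sg → Q)
    (hT : ∀ j, Half ρv2 ρs2 (a j) (Tt j) (fun i => G i j))
    (hB : ∀ i, Half ρv1 ρs1 (b i) (B i).dual (fun j => (G i j).dual))
    (α β : Sg → Q) (hα : ∀ j x, j + β x ≠ e0 → a j x = α x)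
    (hβ : ∀ i x, i + α x ≠ e0 → b i x = β x)
    (hαSP : ∀ i x x', SP (i + α x) → SP (i + α x') → x = x')
    (hβSP : ∀ i x x', SP (i + β x) → SP (i + β x') → x = x')
    (P : Dat K) (hPS : ∀ x, P.S x = (B (α x)).S x) (hPT : ∀ y, P.T y = (Tt (β y)).T y)
    (hPC : ∀ x y, P.C x y = (B (α x)).C x y) : Half ρv2 ρs2 α P B := by
  have hS1 : ∀ i x, i + α x ≠ e0 → ∀ j, j + β x ≠ e0 →
      ((G i j).S x).1 = ((B i).S x).1 := by
    intro i x hi j hj
    have := (hB i).h4 j x (by rw [hβ i x hi]; exact hj)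
    exact this.1
  have hself : ∀ y : Sg, β y + β y ≠ e0 := by
    intro y
    rw [Q.add_self]
    exact e0_ne.symm
  -- transfer of the `T` fields to the run child
  have hTrun : ∀ i y, i + α y ≠ e0 → (B i).T y = (G i (β y)).T y := by
    intro i y hi
    have := (hB i).h2S (β y) y (by rw [hβ i y hi, Q.add_self])
    exact this.symm
  refine ⟨hαSP, ?_, ?_, ?_, ?_, ?_, ?_⟩
  · intro i x hi
    obtain ⟨j, hj, -, -, -⟩ := exists_avoid4 (e0 + β x) 0 0 0
    have hj' : j + β x ≠ e0 := fun h => hj (Q.add_eq_iff.1 h)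
    have hne : i + α x ≠ e0 := fun h => hi (Or.inr h)
    rw [← hS1 i x hne j hj', ← hα j x hj']
    rw [← hα j x hj'] at hi
    exact (hT j).h1 i x hi
  · intro i x hi
    rw [hPS, Q.add_eq_zero_iff.1 hi]
  · intro i x y hi
    rw [hPC, Q.add_eq_zero_iff.1 hi]
  · intro i x y hi
    have hne : i + α x ≠ e0 := fun h => hi (Or.inr h)
    -- the run child of `w` seen from `V_i`
    have e1 : (B i).C x y = (G i (b i y)).C x y := by
      have := (hB i).h2C (b i y) y x (Q.add_self _)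
      exact this.symm
    have e2 : (B i).T y = (G i (b i y)).T y := by
      have := (hB i).h2S (b i y) y (Q.add_self _)
      exact this.symm
    have hj : b i y + β x ≠ e0 := by
      by_cases hxy : x = y
      · subst hxy
        rw [hβ i x hne]
        exact hself x
      · intro h
        have h3 : b i y + b i x = e0 := by rw [hβ i x hne]; exact h
        exact hxy ((hB i).h0 (b i y) x y (Or.inr h3) (Or.inl (Q.add_self _)))
    rw [e1, e2]
    exact (hT (b i y)).h3 i x y (by rw [hα _ x hj]; exact hi)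
  · intro i y hi
    rw [hTrun i y hi, hPT]
    exact (hT (β y)).h4 i y (by rw [hα _ y (hself y)]; exact hi)
  · intro i i' y hi hi'
    rw [hTrun i y hi, hTrun i' y hi']
    exact (hT (β y)).h5 i i' y (by rw [hα _ y (hself y)]; exact hi)
      (by rw [hα _ y (hself y)]; exact hi')

/-- The coherence lemma. -/
theorem coherence {K : Type} {ρv1 ρs1 ρv2 ρs2 : K → K → Prop} (G : Q → Q → Dat K)
    (B Tt : Q → Dat K) (a b : Q → Sg → Q)
    (hT : ∀ j, Half ρv2 ρs2 (a j) (Tt j) (fun i => G i j))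
    (hB : ∀ i, Half ρv1 ρs1 (b i) (B i).dual (fun j => (G i j).dual)) :
    ∃ (α β : Sg → Q) (P : Dat K), Half ρv2 ρs2 α P B ∧
      Half ρv1 ρs1 β P.dual (fun j => (Tt j).dual) ∧
      (∀ j x, j + β x ≠ e0 → a j x = α x) ∧ (∀ i x, i + α x ≠ e0 → b i x = β x) := by
  have hlink : ∀ x : Sg, ∃ αβ : Q × Q, (∀ j, j + αβ.2 ≠ e0 → a j x = αβ.1) ∧
      (∀ i, i + αβ.1 ≠ e0 → b i x = αβ.2) := by
    intro x
    obtain ⟨α, β, h1, h2⟩ := link_aux (fun j => a j x) (fun i => b i x)
      (fun i j => ((G i j).S x).1) (fun i j => ((G i j).T x).1)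
      (fun i => ((B i).S x).1) (fun j => ((Tt j).T x).1)
      (fun i j h => ((hB i).h4 j x h).1) (fun i j h => (hT j).h1 i x h)
      (fun i j h => ((hT j).h4 i x h).1) (fun i j h => (hB i).h1 j x h)
    exact ⟨(α, β), h1, h2⟩
  choose αβ h1 h2 using hlink
  have hα : ∀ j x, j + (αβ x).2 ≠ e0 → a j x = (αβ x).1 := fun j x => h1 x j
  have hβ : ∀ i x, i + (αβ x).1 ≠ e0 → b i x = (αβ x).2 := fun i x => h2 x i
  have hαSP : ∀ i x x', SP (i + (αβ x).1) → SP (i + (αβ x').1) → x = x' := by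
    intro i x x' hx hx'
    obtain ⟨j, hj1, hj2, -, -⟩ := exists_avoid4 (e0 + (αβ x).2) (e0 + (αβ x').2) 0 0
    have e1 := hα j x fun h => hj1 (Q.add_eq_iff.1 h)
    have e2 := hα j x' fun h => hj2 (Q.add_eq_iff.1 h)
    rw [← e1] at hx
    rw [← e2] at hx'
    exact (hT j).h0 i x x' hx hx'
  have hβSP : ∀ i x x', SP (i + (αβ x).2) → SP (i + (αβ x').2) → x = x' := by
    intro j x x' hx hx'
    obtain ⟨i, hi1, hi2, -, -⟩ := exists_avoid4 (e0 + (αβ x).1) (e0 + (αβ x').1) 0 0
    have e1 := hβ i x fun h => hi1 (Q.add_eq_iff.1 h)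
    have e2 := hβ i x' fun h => hi2 (Q.add_eq_iff.1 h)
    rw [← e1] at hx
    rw [← e2] at hx'
    exact (hB i).h0 j x x' hx hx'
  have hC : ∀ x y, (B (αβ x).1).C x y = (Tt (αβ y).2).C x y := by
    intro x y
    -- `b` at the run child of `V`
    have k1 : b (αβ x).1 y = (αβ y).2 := by
      apply hβ
      intro h
      by_cases hxy : x = y
      · subst hxy
        rw [Q.add_self] at h
        exact e0_ne h.symm
      · exact hxy (hαSP _ x y (Or.inl (Q.add_self _)) (Or.inr h))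
    have k2 : a (αβ y).2 x = (αβ x).1 := by
      apply hα
      intro h
      by_cases hxy : x = y
      · subst hxy
        rw [Q.add_self] at h
        exact e0_ne h.symm
      · exact hxy (hβSP _ x y (Or.inr h) (Or.inl (Q.add_self _)))
    have e1 := (hB (αβ x).1).h2C (αβ y).2 y x (by rw [k1, Q.add_self])
    have e2 := (hT (αβ y).2).h2C (αβ x).1 x y (by rw [k2, Q.add_self])
    simp only [Dat.dual_C] at e1
    rw [← e1, e2]
  refine ⟨fun x => (αβ x).1, fun x => (αβ x).2,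
    ⟨fun x => (B (αβ x).1).S x, fun y => (Tt (αβ y).2).T y, fun x y => (B (αβ x).1).C x y⟩,
    ?_, ?_, hα, hβ⟩
  · exact half_coh G B Tt a b hT hB _ _ hα hβ hαSP hβSP _ (fun _ => rfl) (fun _ => rfl)
      (fun _ _ => rfl)
  · refine half_coh (fun j i => (G i j).dual) (fun j => (Tt j).dual) (fun i => (B i).dual) b a
      hB hT _ _ hβ hα hβSP hαSP _ (fun _ => rfl) (fun _ => rfl) ?_
    intro y x
    simp only [Dat.dual_C]
    exact hC x y

end Pool.Agent.H5.LL
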