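import Pool.Agent.H5.LL.Core

/-!
Trees, fields on boxes, extension of configurations to all scales, uniqueness.
-/

namespace Pool.Agent.H5.LL

/-- A `Q`-regular tree with a fixed end: levels, parents, indices, children. -/
class HTree (T : Type) where
  lev : T → ℤ
  up : T → T
  idx : T → Q
  ch : T → Q → T
  lev_up : ∀ v, lev (up v) = lev v + 1
  up_ch : ∀ v i, up (ch v i) = v
  idx_ch : ∀ v i, idx (ch v i) = i
  ch_idx : ∀ v, ch (up v) (idx v) = v
  conn : ∀ v v', ∃ n n' : ℕ, up^[n] v = up^[n'] v'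

open HTree

/-- The relations between contents of a child and its parent (`v`) and between siblings (`s`). -/
structure Rel (K : Type) where
  v1 : K → K → Prop
  s1 : K → K → Prop
  v2 : K → K → Prop
  s2 : K → K → Prop

def Rel.dual {K : Type} (R : Rel K) : Rel K := ⟨R.v2, R.s2, R.v1, R.s1⟩

/-- The butterfly rule. -/
def LOC {K : Type} (R : Rel K) (α β : Sg → Q) (P : Dat K) (L U : Q → Dat K) : Prop :=
  Half R.v2 R.s2 α P L ∧ Half R.v1 R.s1 β P.dual (fun j => (U j).dual)

theorem LOC.dual {K : Type} {R : Rel K} {α β : Sg → Q} {P : Dat K} {L U : Q → Dat K}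
    (h : LOC R α β P L U) : LOC R.dual β α P.dual (fun j => (U j).dual) (fun i => (L i).dual) :=
  ⟨h.2, h.1⟩

section uniq

variable {K : Type} {ρv ρs ρv' ρs' : K → K → Prop}

theorem Half.alpha_unique {α α' : Sg → Q} {P P' : Dat K} {L : Q → Dat K}
    (h : Half ρv ρs α P L) (h' : Half ρv' ρs' α' P' L) : α = α' := by
  funext x
  obtain ⟨i, h1, h2, h3, h4⟩ := exists_avoid4 (α x) (α x + e0) (α' x) (α' x + e0)
  have e1 := h.h1 i x (not_SP_iff.2 ⟨h1, h2⟩)
  have e2 := h'.h1 i x (not_SP_iff.2 ⟨h3, h4⟩)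
  rw [e1] at e2
  exact add_left_cancel e2

theorem Half.S_unique {α α' : Sg → Q} {P P' : Dat K} {L : Q → Dat K}
    (h : Half ρv ρs α P L) (h' : Half ρv' ρs' α' P' L) : P.S = P'.S := by
  have e := h.alpha_unique h'
  subst e
  funext x
  rw [← h.h2S (α x) x (Q.add_self _), ← h'.h2S (α x) x (Q.add_self _)]

theorem Half.C_unique {α α' : Sg → Q} {P P' : Dat K} {L : Q → Dat K}
    (h : Half ρv ρs α P L) (h' : Half ρv' ρs' α' P' L) : P.C = P'.C := by
  have e := h.alpha_unique h'
  subst e
  funext x y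
  rw [← h.h2C (α x) x y (Q.add_self _), ← h'.h2C (α x) x y (Q.add_self _)]

theorem LOC.unique {R R' : Rel K} {α β α' β' : Sg → Q} {P P' : Dat K} {L U : Q → Dat K}
    (h : LOC R α β P L U) (h' : LOC R' α' β' P' L U) : P = P' ∧ α = α' ∧ β = β' := by
  have e1 := h.1.S_unique h'.1
  have e2 := h.1.C_unique h'.1
  have e3 := h.2.S_unique h'.2
  simp only [Dat.dual_S] at e3
  refine ⟨?_, h.1.alpha_unique h'.1, h.2.alpha_unique h'.2⟩
  cases P
  cases P'
  simp_all

/-- Shift of the indices of the children. -/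
theorem Half.shift {α : Sg → Q} {P : Dat K} {L : Q → Dat K} (h : Half ρv ρs α P L) (c : Q) :
    Half ρv ρs (fun x => α x + c) P (fun i => L (i + c)) := by
  have e : ∀ (i : Q) (x : Sg), i + (α x + c) = i + c + α x := fun i x => by
    rw [add_comm (α x) c, add_assoc]
  refine ⟨fun i x x' h1 h2 => ?_, fun i x h1 => ?_, fun i x h1 => ?_, fun i x y h1 => ?_,
    fun i x y h1 => ?_, fun i y h1 => ?_, fun i i' y h1 h2 => ?_⟩
  · rw [e] at h1 h2
    exact h.h0 _ x x' h1 h2
  · rw [e] at h1 ⊢
    exact h.h1 _ x h1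
  · rw [e] at h1
    exact h.h2S _ x h1
  · rw [e] at h1
    exact h.h2C _ x y h1
  · rw [e] at h1
    exact h.h3 _ x y h1
  · rw [e] at h1
    exact h.h4 _ y h1
  · rw [e] at h1 h2
    exact h.h5 _ _ y h1 h2

end uniq

variable {T : Type} [HTree T] {K : Type}

/-- Fields on all boxes. -/
def IsFld (R : Rel K) (F : T → T → Dat K) (α β : T → T → Sg → Q) : Prop :=
  ∀ V w : T, 1 ≤ lev V + lev w →
    LOC R (α V w) (β V w) (F V w) (fun i => F (ch V i) w) (fun j => F V (ch w j))

/-- Configurations on the boxes of scale zero, i.e. on the group `Q ≀ ℤ`. -/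
def InX (R : Rel K) (pos : K → Prop) (x : T → T → Dat K) : Prop :=
  ∀ V w : T, lev V + lev w = 1 → ∃ (α β : Sg → Q) (P : Dat K),
    LOC R α β P (fun i => x (ch V i) w) (fun j => x V (ch w j)) ∧
    ∀ j y, ¬ SP (j + β y) → pos ((x V (ch w j)).T y).2

theorem lev_ch (v : T) (i : Q) : lev (ch v i) = lev v - 1 := by
  have := lev_up (ch v i)
  rw [up_ch] at this
  omega

open Classical in
/-- The parent datum of a butterfly. -/
noncomputable def pick (R : Rel K) (L U : Q → Dat K) : Dat K :=
  if h : ∃ (P : Dat K) (α β : Sg → Q), LOC R α β P L U then h.choose else L 0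

theorem pick_eq {R : Rel K} {α β : Sg → Q} {P : Dat K} {L U : Q → Dat K}
    (h : LOC R α β P L U) : pick R L U = P := by
  have hex : ∃ (P : Dat K) (α β : Sg → Q), LOC R α β P L U := ⟨P, α, β, h⟩
  unfold pick
  rw [dif_pos hex]
  obtain ⟨α', β', h'⟩ := hex.choose_spec
  exact (h'.unique h).1

/-- The extension of a configuration to scale `n`. -/
noncomputable def Fn (R : Rel K) (x : T → T → Dat K) : ℕ → T → T → Dat K
  | 0 => x
  | n + 1 => fun V w => pick R (fun i => Fn R x n (ch V i) w) (fun j => Fn R x n V (ch w j))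

theorem Fn_loc {R : Rel K} {pos : K → Prop} {x : T → T → Dat K} (hx : InX R pos x) (n : ℕ) :
    ∀ V w : T, lev V + lev w = n + 1 → ∃ α β : Sg → Q,
      LOC R α β (Fn R x (n + 1) V w) (fun i => Fn R x n (ch V i) w)
        (fun j => Fn R x n V (ch w j)) := by
  induction n with
  | zero =>
    intro V w h
    obtain ⟨α, β, P, h1, -⟩ := hx V w (by simpa using h)
    refine ⟨α, β, ?_⟩
    have : Fn R x 1 V w = P := pick_eq h1
    rw [this]
    exact h1
  | succ n ih =>
    intro V w h
    have hB : ∀ i, ∃ α β : Sg → Q, LOC R α β (Fn R x (n + 1) (ch V i) w)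
        (fun i' => Fn R x n (ch (ch V i) i') w) (fun j => Fn R x n (ch V i) (ch w j)) := by
      intro i
      apply ih
      rw [lev_ch]
      push_cast at h ⊢
      omega
    have hT : ∀ j, ∃ α β : Sg → Q, LOC R α β (Fn R x (n + 1) V (ch w j))
        (fun i => Fn R x n (ch V i) (ch w j)) (fun j' => Fn R x n V (ch (ch w j) j')) := by
      intro j
      apply ih
      rw [lev_ch]
      push_cast at h ⊢
      omega
    choose aB bB hB' using hB
    choose aT bT hT' using hT
    obtain ⟨α, β, P, h1, h2, -, -⟩ := coherence (fun i j => Fn R x n (ch V i) (ch w j))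
      (fun i => Fn R x (n + 1) (ch V i) w) (fun j => Fn R x (n + 1) V (ch w j)) aT bB
      (fun j => (hT' j).1) (fun i => (hB' i).2)
    have h3 : LOC R α β P (fun i => Fn R x (n + 1) (ch V i) w)
        (fun j => Fn R x (n + 1) V (ch w j)) := ⟨h1, h2⟩
    refine ⟨α, β, ?_⟩
    have : Fn R x (n + 1 + 1) V w = P := pick_eq h3
    rw [this]
    exact h3

/-- Every configuration of `X` extends to fields on all boxes. -/
theorem InX.exists_fld {R : Rel K} {pos : K → Prop} {x : T → T → Dat K} (hx : InX R pos x) :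
    ∃ (F : T → T → Dat K) (α β : T → T → Sg → Q), IsFld R F α β ∧
      ∀ V w, lev V + lev w = 0 → F V w = x V w := by
  have h : ∀ V w : T, ∃ αβ : (Sg → Q) × (Sg → Q), 1 ≤ lev V + lev w →
      LOC R αβ.1 αβ.2 (Fn R x (lev V + lev w).toNat V w)
        (fun i => Fn R x (lev (ch V i) + lev w).toNat (ch V i) w)
        (fun j => Fn R x (lev V + lev (ch w j)).toNat V (ch w j)) := by
    intro V w
    by_cases hs : 1 ≤ lev V + lev w
    · obtain ⟨n, hn⟩ : ∃ n : ℕ, lev V + lev w = n + 1 :=
        ⟨(lev V + lev w - 1).toNat, by omega⟩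
      obtain ⟨α, β, h1⟩ := Fn_loc hx n V w hn
      refine ⟨(α, β), fun _ => ?_⟩
      have e1 : (lev V + lev w).toNat = n + 1 := by omega
      have e2 : ∀ i, (lev (ch V i) + lev w).toNat = n := fun i => by
        rw [lev_ch]; omega
      have e3 : ∀ j, (lev V + lev (ch w j)).toNat = n := fun j => by
        rw [lev_ch]; omega
      simp only [e1, e2, e3]
      exact h1
    · exact ⟨(0, 0), fun h => absurd h hs⟩
  choose αβ hαβ using h
  refine ⟨fun V w => Fn R x (lev V + lev w).toNat V w, fun V w => (αβ V w).1,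
    fun V w => (αβ V w).2, fun V w hs => hαβ V w hs, fun V w h0 => ?_⟩
  simp only [h0]
  rfl

/-- Fields with the same values at scale zero agree. -/
theorem IsFld.unique {R : Rel K} {F F' : T → T → Dat K} {α β α' β' : T → T → Sg → Q}
    (h : IsFld R F α β) (h' : IsFld R F' α' β')
    (h0 : ∀ V w, lev V + lev w = 0 → F V w = F' V w) (n : ℕ) :
    ∀ V w, lev V + lev w = n → F V w = F' V w := by
  induction n with
  | zero => simpa using h0
  | succ n ih =>
    intro V w hs
    have h1 := h V w (by push_cast at hs; omega)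
    have h2 := h' V w (by push_cast at hs; omega)
    have e1 : (fun i => F (ch V i) w) = fun i => F' (ch V i) w := by
      funext i
      apply ih
      rw [lev_ch]; push_cast at hs; omega
    have e2 : (fun j => F V (ch w j)) = fun j => F' V (ch w j) := by
      funext i
      apply ih
      rw [lev_ch]; push_cast at hs; omega
    rw [e1, e2] at h1
    exact (h1.unique h2).1

theorem IsFld.unique_labels {R : Rel K} {F F' : T → T → Dat K} {α β α' β' : T → T → Sg → Q}
    (h : IsFld R F α β) (h' : IsFld R F' α' β')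
    (h0 : ∀ V w, lev V + lev w = 0 → F V w = F' V w) (V w : T) (hs : 1 ≤ lev V + lev w) :
    α V w = α' V w ∧ β V w = β' V w := by
  obtain ⟨n, hn⟩ : ∃ n : ℕ, lev V + lev w = n + 1 :=
    ⟨(lev V + lev w - 1).toNat, by omega⟩
  have h1 := h V w hs
  have h2 := h' V w hs
  have e1 : (fun i => F (ch V i) w) = fun i => F' (ch V i) w := by
    funext i
    apply h.unique h' h0 n
    rw [lev_ch]; omega
  have e2 : (fun j => F V (ch w j)) = fun j => F' V (ch w j) := by
    funext i
    apply h.unique h' h0 n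
    rw [lev_ch]; omega
  rw [e1, e2] at h1
  exact (h1.unique h2).2

/-- The links between labels seen from neighbouring boxes. -/
theorem IsFld.links {R : Rel K} {F : T → T → Dat K} {α β : T → T → Sg → Q}
    (h : IsFld R F α β) (V w : T) (hs : 2 ≤ lev V + lev w) :
    (∀ j x, j + β V w x ≠ e0 → α V (ch w j) x = α V w x) ∧
    (∀ i x, i + α V w x ≠ e0 → β (ch V i) w x = β V w x) := by
  have hT : ∀ j, LOC R (α V (ch w j)) (β V (ch w j)) (F V (ch w j))
      (fun i => F (ch V i) (ch w j)) (fun j' => F V (ch (ch w j) j')) := fun j =>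
    h V (ch w j) (by rw [lev_ch]; omega)
  have hB : ∀ i, LOC R (α (ch V i) w) (β (ch V i) w) (F (ch V i) w)
      (fun i' => F (ch (ch V i) i') w) (fun j => F (ch V i) (ch w j)) := fun i =>
    h (ch V i) w (by rw [lev_ch]; omega)
  obtain ⟨α', β', P, h1, h2, h3, h4⟩ := coherence (fun i j => F (ch V i) (ch w j))
    (fun i => F (ch V i) w) (fun j => F V (ch w j)) (fun j => α V (ch w j))
    (fun i => β (ch V i) w) (fun j => (hT j).1) (fun i => (hB i).2)
  have h5 : LOC R α' β' P (fun i => F (ch V i) w) (fun j => F V (ch w j)) := ⟨h1, h2⟩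
  obtain ⟨-, e1, e2⟩ := (h V w (by omega)).unique h5
  rw [e1, e2]
  exact ⟨h3, h4⟩

end Pool.Agent.H5.LL
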