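import Pool.Agent.H5.LL.Spec

/-!
Freeness in the language of trees: automorphisms, invariance of the fields, telescoping.
-/

namespace Pool.Agent.H5.LL

open HTree

/-- Automorphisms of one tree. -/
structure TAut (T : Type) [HTree T] where
  map : T → T
  n : ℤ
  c : ℤ → Q
  lev_map : ∀ V, lev (map V) = lev V + n
  up_map : ∀ V, up (map V) = map (up V)
  idx_map : ∀ V, idx (map V) = idx V + c (lev V)

variable {T : Type} [HTree T] {K : Type}

theorem TAut.map_ch (g : TAut T) (V : T) (i : Q) :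
    g.map (ch V i) = ch (g.map V) (i + g.c (lev V - 1)) := by
  have h1 := ch_idx (g.map (ch V i))
  rw [g.up_map, up_ch, g.idx_map, idx_ch, lev_ch] at h1
  exact h1.symm

theorem TAut.map_ch' (g : TAut T) (V : T) (i : Q) :
    ch (g.map V) i = g.map (ch V (i + g.c (lev V - 1))) := by
  rw [g.map_ch, add_assoc, Q.add_self, add_zero]

theorem TAut.up_iter (g : TAut T) (V : T) (n : ℕ) : up^[n] (g.map V) = g.map (up^[n] V) := by
  induction n with
  | zero => rfl
  | succ n ih => rw [Function.iterate_succ_apply', Function.iterate_succ_apply', ih, g.up_map]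

theorem lev_iter (V : T) (n : ℕ) : lev (up^[n] V) = lev V + n := by
  induction n with
  | zero => simp
  | succ n ih =>
    rw [Function.iterate_succ_apply', lev_up, ih]
    push_cast
    ring

/-- The fields pulled back by a pair of automorphisms. -/
theorem IsFld.pull {R : Rel K} {F : T → T → Dat K} {α β : T → T → Sg → Q} (h : IsFld R F α β)
    (g1 g2 : TAut T) (hn : g1.n + g2.n = 0) :
    IsFld R (fun V w => F (g1.map V) (g2.map w))
      (fun V w x => α (g1.map V) (g2.map w) x + g1.c (lev V - 1))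
      (fun V w y => β (g1.map V) (g2.map w) y + g2.c (lev w - 1)) := by
  intro V w hs
  have h1 := h (g1.map V) (g2.map w) (by rw [g1.lev_map, g2.lev_map]; omega)
  have h2 := h1.1.shift (g1.c (lev V - 1))
  have h3 := h1.2.shift (g2.c (lev w - 1))
  refine ⟨?_, ?_⟩
  · have e : (fun i => F (g1.map (ch V i)) (g2.map w)) =
        fun i => F (ch (g1.map V) (i + g1.c (lev V - 1))) (g2.map w) := by
      funext i
      rw [g1.map_ch]
    simp only
    rw [e]
    exact h2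
  · have e : (fun j => (F (g1.map V) (g2.map (ch w j))).dual) =
        fun j => (F (g1.map V) (ch (g2.map w) (j + g2.c (lev w - 1)))).dual := by
      funext i
      rw [g2.map_ch]
    simp only
    rw [e]
    exact h3

section inv

variable {R : Rel K} {F : T → T → Dat K} {α β : T → T → Sg → Q} (h : IsFld R F α β)
  (g1 g2 : TAut T) (hn : g1.n + g2.n = 0)
  (hinv : ∀ V w, lev V + lev w = 0 → F (g1.map V) (g2.map w) = F V w)
include h hn hinv

theorem IsFld.inv (V w : T) (hs : 0 ≤ lev V + lev w) : F (g1.map V) (g2.map w) = F V w := by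
  obtain ⟨n, hn'⟩ : ∃ n : ℕ, lev V + lev w = n := ⟨(lev V + lev w).toNat, by omega⟩
  exact (h.pull g1 g2 hn).unique h hinv n V w hn'

theorem IsFld.inv_labels (V w : T) (hs : 1 ≤ lev V + lev w) :
    (∀ x, α (g1.map V) (g2.map w) x + g1.c (lev V - 1) = α V w x) ∧
    (∀ y, β (g1.map V) (g2.map w) y + g2.c (lev w - 1) = β V w y) := by
  obtain ⟨h1, h2⟩ := (h.pull g1 g2 hn).unique_labels h hinv V w hs
  exact ⟨fun x => congrFun h1 x, fun y => congrFun h2 y⟩

/-- Labels are invariant. -/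
theorem IsFld.inv_lab1 (V w : T) (hs : 0 ≤ lev V + lev w) (x : Sg) :
    lab1 α (g1.map V) (g2.map w) x = lab1 α V w x := by
  unfold lab1
  have h1 := (h.inv_labels g1 g2 hn hinv (up V) w (by rw [lev_up]; omega)).1 x
  rw [g1.up_map, g1.idx_map, ← h1, lev_up]
  have e : lev V + 1 - 1 = lev V := by ring
  rw [e]
  abel

theorem IsFld.inv_lab2 (V w : T) (hs : 0 ≤ lev V + lev w) (y : Sg) :
    lab2 β (g1.map V) (g2.map w) y = lab2 β V w y := by
  unfold lab2
  have h1 := (h.inv_labels g1 g2 hn hinv V (up w) (by rw [lev_up]; omega)).2 y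
  rw [g2.up_map, g2.idx_map, ← h1, lev_up]
  have e : lev w + 1 - 1 = lev w := by ring
  rw [e]
  abel

theorem IsFld.inv_K0 {K0 : T → T → K} (hK : IsK0 F α β K0) (V w : T)
    (hs : 0 ≤ lev V + lev w) : K0 (g1.map V) (g2.map w) = K0 V w := by
  obtain ⟨a, ha⟩ := exists_of_unique _ (h.p0 V w hs)
  obtain ⟨b, hb⟩ := exists_of_unique _ (h.q0 V w hs)
  obtain ⟨x, hx, hy, -, -⟩ := Sg.avoid a b a b
  have h1 := (hK V w hs x x (ha x hx) (hb x hy)).1
  have h2 := (hK (g1.map V) (g2.map w) (by rw [g1.lev_map, g2.lev_map]; omega) x x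
    (by rw [h.inv_lab1 g1 g2 hn hinv V w hs]; exact ha x hx)
    (by rw [h.inv_lab2 g1 g2 hn hinv V w hs]; exact hb x hy)).1
  rw [← h1, ← h2, h.inv g1 g2 hn hinv V w hs]

/-- No torsion. -/
theorem IsFld.no_torsion (V w : T) (hs : 1 ≤ lev V + lev w) (hV : g1.map V = V)
    (hw : g2.map w = w) : g1.c (lev V - 1) = 0 := by
  have h1 := (h V w hs).1
  obtain ⟨i, hi1, hi2, hi3, hi4⟩ := exists_avoid4 (α V w 0) (α V w 0 + e0)
    (α V w 0 + g1.c (lev V - 1)) (α V w 0 + e0 + g1.c (lev V - 1))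
  have e1 := h1.h1 i 0 (not_SP_iff.2 ⟨hi1, hi2⟩)
  have hns : ¬ SP (i + g1.c (lev V - 1) + α V w 0) := by
    rw [not_SP_iff]
    constructor
    · intro hc
      apply hi3
      rw [Q.add_eq_iff] at hc
      exact hc
    · intro hc
      apply hi4
      rw [Q.add_eq_iff] at hc
      exact hc
  have e2 := h1.h1 (i + g1.c (lev V - 1)) 0 hns
  have e3 := h.inv g1 g2 hn hinv (ch V i) w (by rw [lev_ch]; omega)
  rw [g1.map_ch, hV, hw] at e3
  rw [e3, e1] at e2
  have e4 : i = i + g1.c (lev V - 1) := add_right_cancel e2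
  exact left_eq_add.1 e4

end inv

/-- Telescoping. -/
theorem no_period {K0 : T → T → Cont}
    (v2 : ∀ V w, 0 ≤ lev V + lev w → Hrel (K0 V w) (K0 (up V) w))
    (v1 : ∀ V w, 0 ≤ lev V + lev w → Vrel (K0 V w) (K0 V (up w)))
    (pos : ∀ V w, lev V + lev w = 0 → posC (K0 V w))
    (n : ℕ) (hn : 1 ≤ n) (V0 W : T) (hlev : lev V0 + lev W = -n)
    (hper : ∀ s : ℕ, K0 (up^[s + n] V0) W = K0 (up^[s] V0) (up^[n] W)) : False := by
  let k : ℕ → ℕ → Cont := fun s j => K0 (up^[s + j] V0) (up^[n - j] W)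
  have hsc : ∀ s j, j ≤ n → lev (up^[s + j] V0) + lev (up^[n - j] W) = s := by
    intro s j hj
    rw [lev_iter, lev_iter]
    push_cast [Nat.cast_sub hj]
    linarith
  -- one step
  have step : ∀ s j, j < n →
      (k s j).e + (k s j).d = (k s (j + 1)).d + 2 * (k (s + 1) j).e := by
    intro s j hj
    have h1 := v2 (up^[s + j] V0) (up^[n - j] W) (by rw [hsc s j hj.le]; positivity)
    have h2 := v1 (up^[s + (j + 1)] V0) (up^[n - (j + 1)] W)
      (by rw [hsc s (j + 1) hj]; positivity)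
    unfold Hrel at h1
    unfold Vrel at h2
    have e1 : up (up^[s + j] V0) = up^[s + (j + 1)] V0 :=
      (Function.iterate_succ_apply' up (s + j) V0).symm
    have e2 : up (up^[n - (j + 1)] W) = up^[n - j] W := by
      have h3 := (Function.iterate_succ_apply' up (n - (j + 1)) W).symm
      rw [h3, show (n - (j + 1)).succ = n - j by omega]
    have e3 : up^[s + 1 + j] V0 = up^[s + (j + 1)] V0 := by
      rw [show s + 1 + j = s + (j + 1) by omega]
    rw [e1] at h1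
    rw [e2] at h2
    simp only [k]
    rw [e3, h1, h2]
  have hsum : ∀ s : ℕ, ∑ j ∈ Finset.range n, (k s j).e =
      2 * ∑ j ∈ Finset.range n, (k (s + 1) j).e := by
    intro s
    have h1 : ∑ j ∈ Finset.range n, ((k s j).e + (k s j).d) =
        ∑ j ∈ Finset.range n, ((k s (j + 1)).d + 2 * (k (s + 1) j).e) :=
      Finset.sum_congr rfl fun j hj => step s j (Finset.mem_range.1 hj)
    rw [Finset.sum_add_distrib, Finset.sum_add_distrib, ← Finset.mul_sum] at h1
    have h2 := Finset.sum_range_succ (fun j => (k s j).d) n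
    have h3 := Finset.sum_range_succ' (fun j => (k s j).d) n
    have h4 : (k s n).d = (k s 0).d := by
      have := hper s
      simp only [k]
      rw [Nat.sub_self, Nat.sub_zero, Nat.add_zero]
      simp only [Function.iterate_zero, id_eq]
      rw [this]
    linarith
  have hpow : ∀ s : ℕ, ∑ j ∈ Finset.range n, (k 0 j).e =
      2 ^ s * ∑ j ∈ Finset.range n, (k s j).e := by
    intro s
    induction s with
    | zero => simp
    | succ s ih => rw [ih, hsum s]; ring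
  have hpos : (n : ℤ) ≤ ∑ j ∈ Finset.range n, (k 0 j).e := by
    have : ∑ j ∈ Finset.range n, (1 : ℤ) ≤ ∑ j ∈ Finset.range n, (k 0 j).e := by
      apply Finset.sum_le_sum
      intro j hj
      exact (pos _ _ (by rw [hsc 0 j (Finset.mem_range.1 hj).le]; rfl)).1
    simpa using this
  set E := ∑ j ∈ Finset.range n, (k 0 j).e with hE
  have hEpos : 0 < E := by
    have : (1 : ℤ) ≤ n := by exact_mod_cast hn
    linarith
  have h1 := hpow E.toNat
  have h2 : 0 < ∑ j ∈ Finset.range n, (k E.toNat j).e := by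
    by_contra hc
    push Not at hc
    have : (2 : ℤ) ^ E.toNat * ∑ j ∈ Finset.range n, (k E.toNat j).e ≤ 0 :=
      mul_nonpos_of_nonneg_of_nonpos (by positivity) hc
    linarith
  have h3 : (E.toNat : ℤ) < 2 ^ E.toNat := by exact_mod_cast Nat.lt_two_pow_self
  have h4 : (2 : ℤ) ^ E.toNat ≤ E := by
    have h6 : (0 : ℤ) < 2 ^ E.toNat := by positivity
    have h7 : (2 : ℤ) ^ E.toNat * 1 ≤ 2 ^ E.toNat * ∑ j ∈ Finset.range n, (k E.toNat j).e :=
      mul_le_mul_of_nonneg_left h2 h6.le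
    linarith
  have h5 : (E.toNat : ℤ) = E := Int.toNat_of_nonneg hEpos.le
  linarith

/-- Every configuration has fields of all scales with a good truth. -/
theorem InX.exists_truth {R : Rel K} {pos : K → Prop} {x : T → T → Dat K} (hx : InX R pos x) :
    ∃ (F : T → T → Dat K) (α β : T → T → Sg → Q) (K0 : T → T → K), IsFld R F α β ∧
      (∀ V w, lev V + lev w = 0 → F V w = x V w) ∧ IsK0 F α β K0 ∧ KGood R pos K0 := by
  obtain ⟨F, α, β, h, h0⟩ := hx.exists_fld
  obtain ⟨K0, hK⟩ := h.exists_K0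
  have hK' : IsK0 F α β K0 := hK
  refine ⟨F, α, β, K0, h, h0, hK', ⟨h.K0_v2 hK', h.K0_v1 hK', h.K0_s2 hK', h.K0_s1 hK', ?_⟩⟩
  intro V w hs
  obtain ⟨α0, β0, P, h1, h2⟩ := hx V (up w) (by rw [lev_up]; omega)
  have h3 := h V (up w) (by rw [lev_up]; omega)
  have e1 : (fun i => F (ch V i) (up w)) = fun i => x (ch V i) (up w) := by
    funext i
    apply h0
    rw [lev_ch, lev_up]
    omega
  have e2 : (fun j => F V (ch (up w) j)) = fun j => x V (ch (up w) j) := by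
    funext j
    apply h0
    rw [lev_ch, lev_up]
    omega
  rw [e1, e2] at h3
  obtain ⟨-, -, e3⟩ := h3.unique h1
  obtain ⟨b, hb⟩ := exists_of_unique _ (h.q0 V w (by omega))
  obtain ⟨y, hy, -, -, -⟩ := Sg.avoid b b b b
  have h4 := h2 (idx w) y (by
    have := hb y hy
    unfold lab2 at this
    rw [e3] at this
    exact this)
  rw [ch_idx, ← h0 V w hs, h.K0_T hK' V w (by omega) y (hb y hy)] at h4
  exact h4

section free

variable {x : T → T → Dat Cont} (hx : InX RC posC x) (g1 g2 : TAut T) (hn : g1.n + g2.n = 0)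
  (hinv : ∀ V w, lev V + lev w = 0 → x (g1.map V) (g2.map w) = x V w)
include hx hn hinv

/-- Torsion elements act freely. -/
theorem free_torsion (V w : T) (hs : 1 ≤ lev V + lev w) (hV : g1.map V = V)
    (hw : g2.map w = w) : g1.c (lev V - 1) = 0 := by
  obtain ⟨F, α, β, h, h0⟩ := hx.exists_fld
  refine h.no_torsion g1 g2 hn ?_ V w hs hV hw
  intro V w hs
  rw [h0 V w hs, h0 _ _ (by rw [g1.lev_map, g2.lev_map]; omega), hinv V w hs]

/-- Elements of infinite order act freely. -/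
theorem free_inf (n : ℕ) (hn1 : 1 ≤ n) (hg : g1.n = n) (V0 w0 : T) (hs : lev V0 + lev w0 = 0)
    (h1 : g1.map V0 = up^[n] V0) (h2 : up^[n] (g2.map w0) = w0) : False := by
  obtain ⟨F, α, β, K0, h, h0, hK, hG⟩ := hx.exists_truth
  have hinv' : ∀ V w, lev V + lev w = 0 → F (g1.map V) (g2.map w) = F V w := by
    intro V w hs
    rw [h0 V w hs, h0 _ _ (by rw [g1.lev_map, g2.lev_map]; omega), hinv V w hs]
  refine no_period hG.v2 hG.v1 hG.pos n hn1 V0 (g2.map w0) ?_ ?_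
  · rw [g2.lev_map]
    omega
  · intro s
    rw [h2, ← h.inv_K0 g1 g2 hn hinv' hK (up^[s] V0) w0 (by rw [lev_iter]; omega),
      ← g1.up_iter, h1, ← Function.iterate_add_apply]

end free

section RC

/-- Build a content. -/
def mkC (d e δ : ℤ) (h : 0 ≤ d ∧ d ≤ 32 ∧ 0 ≤ δ ∧ δ ≤ 32 ∧ -32 ≤ e ∧ e ≤ 32 ∧ -32 ≤ δ + 2 * e ∧
    δ + 2 * e ≤ 64) : Cont :=
  ⟨d, e, δ, h.1, h.2.1, h.2.2.1, h.2.2.2.1, h.2.2.2.2.1, h.2.2.2.2.2.1, h.2.2.2.2.2.2.1,
    h.2.2.2.2.2.2.2⟩

/-- Two-sided chains from one-sided choices. -/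
theorem exists_chain {v : K → K → Prop} (h1 : ∀ c, ∃ p, v c p) (h2 : ∀ p, ∃ c, v c p) (c : K) :
    ∃ G : ℤ → K, G 0 = c ∧ ∀ n, v (G n) (G (n + 1)) := by
  choose f hf using h1
  choose g hg using h2
  refine ⟨fun n => Int.casesOn n (fun n => f^[n] c) (fun n => g^[n + 1] c), rfl, ?_⟩
  intro n
  rcases n with n | n
  · show v (f^[n] c) (f^[n + 1] c)
    rw [Function.iterate_succ_apply']
    exact hf _
  · rcases n with - | n
    · show v (g^[0 + 1] c) (f^[0] c)
      exact hg _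
    · show v (g^[n + 1 + 1] c) (g^[n + 1] c)
      rw [Function.iterate_succ_apply' g (n + 1)]
      exact hg _

theorem RC_good2 : GoodRel RC.v2 RC.s2 where
  refl c := rfl
  symm c c' h := h.symm
  trans c c' c'' h h' := h.trans h'
  sv c c' p h h' := by
    have : c = c' := h
    rw [this]
    exact h'
  chain c := by
    apply exists_chain
    · intro c
      obtain ⟨hd0, hd1, hδ0, hδ1, he0, he1, hs0, hs1⟩ :=
        (⟨c.hd0, c.hd1, c.hδ0, c.hδ1, c.he0, c.he1, c.hs0, c.hs1⟩ :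
          0 ≤ c.d ∧ c.d ≤ 32 ∧ 0 ≤ c.δ ∧ c.δ ≤ 32 ∧ -32 ≤ c.e ∧ c.e ≤ 32 ∧
            -32 ≤ c.δ + 2 * c.e ∧ c.δ + 2 * c.e ≤ 64)
      refine ⟨mkC 0 ((c.e + c.d) / 2) ((c.e + c.d) % 2) (by omega), ?_⟩
      show c.e + c.d = (c.e + c.d) % 2 + 2 * ((c.e + c.d) / 2)
      omega
    · intro c
      obtain ⟨hd0, hd1, hδ0, hδ1, he0, he1, hs0, hs1⟩ :=
        (⟨c.hd0, c.hd1, c.hδ0, c.hδ1, c.he0, c.he1, c.hs0, c.hs1⟩ :
          0 ≤ c.d ∧ c.d ≤ 32 ∧ 0 ≤ c.δ ∧ c.δ ≤ 32 ∧ -32 ≤ c.e ∧ c.e ≤ 32 ∧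
            -32 ≤ c.δ + 2 * c.e ∧ c.δ + 2 * c.e ≤ 64)
      refine ⟨mkC (max 0 (c.δ + 2 * c.e - 32)) (min 32 (c.δ + 2 * c.e))
        (max 0 (-32 - 2 * min 32 (c.δ + 2 * c.e))) (by omega), ?_⟩
      show min 32 (c.δ + 2 * c.e) + max 0 (c.δ + 2 * c.e - 32) = c.δ + 2 * c.e
      omega

theorem RC_good1 : GoodRel RC.v1 RC.s1 where
  refl c := rfl
  symm c c' h := Eq.symm h
  trans c c' c'' h h' := Eq.trans h h'
  sv c c' p h h' := Eq.trans h h'
  chain c := by
    apply exists_chain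
    · intro c
      obtain ⟨hd0, hd1, hδ0, hδ1, he0, he1, hs0, hs1⟩ :=
        (⟨c.hd0, c.hd1, c.hδ0, c.hδ1, c.he0, c.he1, c.hs0, c.hs1⟩ :
          0 ≤ c.d ∧ c.d ≤ 32 ∧ 0 ≤ c.δ ∧ c.δ ≤ 32 ∧ -32 ≤ c.e ∧ c.e ≤ 32 ∧
            -32 ≤ c.δ + 2 * c.e ∧ c.δ + 2 * c.e ≤ 64)
      exact ⟨mkC 0 0 c.d (by omega), rfl⟩
    · intro c
      obtain ⟨hd0, hd1, hδ0, hδ1, he0, he1, hs0, hs1⟩ :=
        (⟨c.hd0, c.hd1, c.hδ0, c.hδ1, c.he0, c.he1, c.hs0, c.hs1⟩ :
          0 ≤ c.d ∧ c.d ≤ 32 ∧ 0 ≤ c.δ ∧ c.δ ≤ 32 ∧ -32 ≤ c.e ∧ c.e ≤ 32 ∧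
            -32 ≤ c.δ + 2 * c.e ∧ c.δ + 2 * c.e ≤ 64)
      exact ⟨mkC c.δ 0 0 (by omega), rfl⟩

instance : Finite Cont := by
  let f : Cont → Set.Icc (0 : ℤ) 32 × Set.Icc (-32 : ℤ) 32 × Set.Icc (0 : ℤ) 32 :=
    fun c => (⟨c.d, c.hd0, c.hd1⟩, ⟨c.e, c.he0, c.he1⟩, ⟨c.δ, c.hδ0, c.hδ1⟩)
  refine Finite.of_injective f ?_
  intro c c' h
  simp only [f, Prod.mk.injEq] at h
  exact Cont.ext (congrArg Subtype.val h.1) (congrArg Subtype.val h.2.1)
    (congrArg Subtype.val h.2.2)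

instance {K : Type} [Finite K] : Finite (Dat K) := by
  let f : Dat K → (Sg → Q × K) × (Sg → Q × K) × (Sg → Sg → K) := fun D => (D.S, D.T, D.C)
  refine Finite.of_injective f ?_
  intro c c' h
  cases c
  cases c'
  simp only [f, Prod.mk.injEq] at h
  obtain ⟨h1, h2, h3⟩ := h
  subst h1 h2 h3
  rfl

end RC

end Pool.Agent.H5.LL
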