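import Pool.Agent.H5.LL.Truth

/-!
FROZEN INTERFACE for the squad MP_5b81c9_an (definitions shared by the modules).
The two trees of the Diestel-Leader graph are both of type `T` (class `HTree`); a box is a pair
`(V, w)` with `0 ≤ lev V + lev w` (its scale); exchanging the trees is the duality.
-/

namespace Pool.Agent.H5.LL

open HTree

/-- Contents. -/
@[ext]
structure Cont where
  d : ℤ
  e : ℤ
  δ : ℤ
  hd0 : 0 ≤ d
  hd1 : d ≤ 32
  hδ0 : 0 ≤ δ
  hδ1 : δ ≤ 32
  he0 : -32 ≤ e
  he1 : e ≤ 32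
  hs0 : -32 ≤ δ + 2 * e
  hs1 : δ + 2 * e ≤ 64

/-- child `c`, parent `p` in the first tree -/
def Hrel (c p : Cont) : Prop := c.e + c.d = p.δ + 2 * p.e

/-- child `c`, parent `p` in the second tree -/
def Vrel (c p : Cont) : Prop := c.d = p.δ

/-- The relations of our SFT: `v2 = Hrel`, `s2 = equality`, `v1 = Vrel`, `s1 = same d`. -/
def RC : Rel Cont := ⟨Vrel, fun c c' => c.d = c'.d, Hrel, fun c c' => c = c'⟩

/-- Positivity at scale zero. -/
def posC (c : Cont) : Prop := 1 ≤ c.e ∧ c.e ≤ 3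

/-- The properties of relations used in the island theorem. -/
structure GoodRel {K : Type} (v s : K → K → Prop) : Prop where
  refl : ∀ c, s c c
  symm : ∀ c c', s c c' → s c' c
  trans : ∀ c c' c'', s c c' → s c' c'' → s c c''
  sv : ∀ c c' p, s c c' → v c' p → v c p
  chain : ∀ c, ∃ G : ℤ → K, G 0 = c ∧ ∀ n, v (G n) (G (n + 1))

section trees

variable {T : Type} [HTree T]

/-- `V` is a descendant of `A` (or `A`). -/
def below (V A : T) : Prop := ∃ n : ℕ, up^[n] V = A

/-- Fields on a region. -/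
def IsFldOn {K : Type} (D : T → T → Prop) (R : Rel K) (F : T → T → Dat K)
    (α β : T → T → Sg → Q) : Prop :=
  ∀ V w : T, D V w → 1 ≤ lev V + lev w →
    LOC R (α V w) (β V w) (F V w) (fun i => F (ch V i) w) (fun j => F V (ch w j))

/-- The pairs inside the box `(A, B)`. -/
def inBox (A B V w : T) : Prop := below V A ∧ below w B

open Classical in
/-- Length of the run of a sequence of labels. -/
noncomputable def run (lab : ℕ → Q) : ℕ := if h : ∃ n, lab n ≠ 0 then Nat.find h else 0

/-- Background label of the `n`-th ancestor of `V` in its parent. -/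
def blab (ab : T → Sg → Q) (V : T) (x : Sg) (n : ℕ) : Q :=
  idx (up^[n] V) + ab (up^[n + 1] V) x

/-- end of the background run of system `x` starting at `V` -/
noncomputable def bend (ab : T → Sg → Q) (V : T) (x : Sg) : T := up^[run (blab ab V x)] V

/-- its label -/
noncomputable def bval (ab : T → Sg → Q) (V : T) (x : Sg) : Q := blab ab V x (run (blab ab V x))

open Classical in
/-- Background fields: labels `ab` (first tree) and `bb` (second tree), truth `K0`. -/
noncomputable def bgF {K : Type} (ab bb : T → Sg → Q) (K0 : T → T → K) (V w : T) : Dat K where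
  S := fun x => (if SP (bval ab V x) then 0 else bval ab V x, K0 (bend ab V x) w)
  T := fun y => (if SP (bval bb w y) then 0 else bval bb w y, K0 V (bend bb w y))
  C := fun x y => K0 (bend ab V x) (bend bb w y)

/-- Requirements on the background labels of one tree:
distinctness and finite runs. -/
structure BGood (ab : T → Sg → Q) : Prop where
  dist : ∀ V x x', x ≠ x' → ¬ SP (ab V x + ab V x')
  fin : ∀ V x, ∃ N : ℕ, ∀ n, N ≤ n → blab ab V x n ≠ 0

/-- Compatibility of background labels with one side of an island with corner `A`: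
exceptional steps at the heights `a x ≥ 1` above `A`, distinctness against the island labels `g`
(`g V x` = label field of the island seen from the boundary) at the vertices of level `≥ m`. -/
structure BCompat (A : T) (a : Sg → ℕ) (m : ℤ) (g : T → Sg → Q) (ab : T → Sg → Q) : Prop where
  pos : ∀ x, 1 ≤ a x
  exc : ∀ x, idx (up^[a x] A) + ab (up^[a x + 1] A) x = e0
  dist : ∀ V, (below V A ∨ V = up A) → m ≤ lev V → ∀ x x', x ≠ x' → ¬ SP (ab V x' + g V x)

/-! ### The modules (frozen statements) -/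

/-- Requirements on a truth function. -/
structure KGood {K : Type} (R : Rel K) (pos : K → Prop) (K0 : T → T → K) : Prop where
  v2 : ∀ V w, 0 ≤ lev V + lev w → R.v2 (K0 V w) (K0 (up V) w)
  v1 : ∀ V w, 0 ≤ lev V + lev w → R.v1 (K0 V w) (K0 V (up w))
  s2 : ∀ V V' w, 0 ≤ lev V + lev w → up V = up V' → R.s2 (K0 V w) (K0 V' w)
  s1 : ∀ V w w', 0 ≤ lev V + lev w → up w = up w' → R.s1 (K0 V w) (K0 V w')
  pos : ∀ V w, lev V + lev w = 0 → pos (K0 V w)

variable (T)

/-- MODULE I (island theorem, section 3). If `lev A + lev B` is very negative the hypotheses on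
`F α β` are vacuous, and the statement gives nonemptiness. -/
def IslandThm : Prop :=
  ∀ (K : Type) (R : Rel K) (pos : K → Prop), GoodRel R.v2 R.s2 → GoodRel R.v1 R.s1 →
  ∀ (A B : T) (F : T → T → Dat K) (α β : T → T → Sg → Q) (K0 : T → T → K) (a b : Sg → ℕ)
    (ab bb : T → Sg → Q),
  IsFldOn (inBox (up A) (up B)) R F α β →
  (∀ V w, inBox A B V w → 0 ≤ lev V + lev w → ∀ x y, ¬ SP (lab1 α V w x) →
    ¬ SP (lab2 β V w y) →
      (F V w).C x y = K0 V w ∧ ((F V w).T y).2 = K0 V w ∧ ((F V w).S x).2 = K0 V w) →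
  KGood R pos K0 → BGood ab → BGood bb →
  BCompat A a (-lev B) (fun V x => α V (up B) x) ab →
  BCompat B b (-lev A) (fun w x => β (up A) w x) bb →
  ∃ (F' : T → T → Dat K) (α' β' : T → T → Sg → Q), IsFld R F' α' β' ∧
    (∀ V w, inBox A B V w → 0 ≤ lev V + lev w → F' V w = F V w) ∧
    (∀ V w, lev V + lev w = 1 → ∀ j y, ¬ SP (j + β' V w y) → pos ((F' V (ch w j)).T y).2) ∧
    ∀ N : ℕ, (∀ x, a x < N ∧ b x < N) → ∀ V w, ¬ inBox (up^[N] A) (up^[N] B) V w →
      (0 ≤ lev V + lev w → F' V w = bgF ab bb K0 V w) ∧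
      (1 ≤ lev V + lev w → α' V w = ab V ∧ β' V w = bb w)

/-- MODULE II (truth, section 4). -/
def TruthThm : Prop :=
  ∃ Kb : T → T → Cont, KGood RC posC Kb ∧
  ∀ s0 : ℕ, ∃ N : ℕ, ∀ (A B : T) (Kx : T → T → Cont), lev A + lev B = s0 →
    KGood RC posC Kx → ∃ K0 : T → T → Cont, KGood RC posC K0 ∧
      (∀ V w, inBox A B V w → 0 ≤ lev V + lev w → K0 V w = Kx V w) ∧
      (∀ V w, 0 ≤ lev V + lev w → ¬ inBox (up^[N] A) (up^[N] B) V w → K0 V w = Kb V w)

/-- MODULE III (background labels of one tree, section 5). -/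
def LabelsThm : Prop :=
  ∀ s0 : ℕ, ∃ N : ℕ, ∀ (A1 A2 : T) (g1 g2 : T → Sg → Q),
    ∃ (a1 a2 : Sg → ℕ) (ab : T → Sg → Q), (∀ x, a1 x < N ∧ a2 x < N) ∧ BGood ab ∧
      BCompat A1 a1 (lev A1 - s0) g1 ab ∧ BCompat A2 a2 (lev A2 - s0) g2 ab

/-- MODULE IV (gluing, section 5): two islands. -/
def GlueThm : Prop :=
  ∀ s0 : ℕ, ∃ N : ℕ, ∀ (x1 x2 : T → T → Dat Cont), InX RC posC x1 → InX RC posC x2 →
  ∀ (A1 B1 A2 B2 : T), lev A1 + lev B1 = s0 → lev A2 + lev B2 = s0 →
    (∀ V w, lev V + lev w = 0 → inBox (up^[N] A1) (up^[N] B1) V w →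
      inBox (up^[N] A2) (up^[N] B2) V w → False) →
    ∃ z : T → T → Dat Cont, InX RC posC z ∧
      (∀ V w, lev V + lev w = 0 → inBox A1 B1 V w → z V w = x1 V w) ∧
      (∀ V w, lev V + lev w = 0 → inBox A2 B2 V w → z V w = x2 V w)

/-- MODULE IV': nonemptiness. -/
def NonemptyThm : Prop := ∃ z : T → T → Dat Cont, InX RC posC z

end trees

end Pool.Agent.H5.LL
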