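import Pool.Agent.H5.LL.Field

/-!
Pointwise form of the rules, the truth `K0`, freeness arguments.
-/

namespace Pool.Agent.H5.LL

open HTree

variable {T : Type} [HTree T] {K : Type}

/-- Label of `V` in its parent seen from `w`. -/
def lab1 (α : T → T → Sg → Q) (V w : T) (x : Sg) : Q := idx V + α (up V) w x

/-- Label of `w` in its parent seen from `V`. -/
def lab2 (β : T → T → Sg → Q) (V w : T) (x : Sg) : Q := idx w + β V (up w) x

theorem lev_up' (v : T) : lev (up v) = lev v + 1 := lev_up v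

/-- The fields with the two trees exchanged. -/
theorem IsFld.dual {R : Rel K} {F : T → T → Dat K} {α β : T → T → Sg → Q} (h : IsFld R F α β) :
    IsFld R.dual (fun V w => (F w V).dual) (fun V w => β w V) (fun V w => α w V) :=
  fun V w hs => (h w V (by rw [add_comm]; exact hs)).dual

namespace IsFld

variable {R : Rel K} {F : T → T → Dat K} {α β : T → T → Sg → Q} (h : IsFld R F α β)
include h

theorem half (V w : T) (hs : 0 ≤ lev V + lev w) :
    Half R.v2 R.s2 (α (up V) w) (F (up V) w) (fun i => F (ch (up V) i) w) :=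
  (h (up V) w (by rw [lev_up]; omega)).1

theorem p0 (V w : T) (hs : 0 ≤ lev V + lev w) (x x' : Sg) (h1 : SP (lab1 α V w x))
    (h2 : SP (lab1 α V w x')) : x = x' :=
  (h.half V w hs).h0 _ x x' h1 h2

theorem p1 (V w : T) (hs : 0 ≤ lev V + lev w) (x : Sg) (h1 : ¬ SP (lab1 α V w x)) :
    ((F V w).S x).1 = lab1 α V w x := by
  have := (h.half V w hs).h1 (idx V) x h1
  simp only [ch_idx] at this
  exact this

theorem p2S (V w : T) (hs : 0 ≤ lev V + lev w) (x : Sg) (h1 : lab1 α V w x = 0) :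
    (F V w).S x = (F (up V) w).S x := by
  have := (h.half V w hs).h2S (idx V) x h1
  simpa only [ch_idx] using this

theorem p2C (V w : T) (hs : 0 ≤ lev V + lev w) (x y : Sg) (h1 : lab1 α V w x = 0) :
    (F V w).C x y = (F (up V) w).C x y := by
  have := (h.half V w hs).h2C (idx V) x y h1
  simpa only [ch_idx] using this

theorem p3 (V w : T) (hs : 0 ≤ lev V + lev w) (x y : Sg) (h1 : ¬ SP (lab1 α V w x)) :
    (F V w).C x y = ((F V w).T y).2 := by
  have := (h.half V w hs).h3 (idx V) x y h1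
  simpa only [ch_idx] using this

theorem p4 (V w : T) (hs : 0 ≤ lev V + lev w) (y : Sg) (h1 : lab1 α V w y ≠ e0) :
    ((F V w).T y).1 = ((F (up V) w).T y).1 ∧ R.v2 ((F V w).T y).2 ((F (up V) w).T y).2 := by
  have := (h.half V w hs).h4 (idx V) y h1
  simpa only [ch_idx] using this

theorem p5 (V V' w : T) (hs : 0 ≤ lev V + lev w) (hV : up V = up V') (y : Sg)
    (h1 : lab1 α V w y ≠ e0) (h2 : lab1 α V' w y ≠ e0) :
    R.s2 ((F V w).T y).2 ((F V' w).T y).2 := by
  have := (h.half V w hs).h5 (idx V) (idx V') y h1 (by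
    have : lab1 α V' w y = idx V' + α (up V) w y := by rw [lab1, hV]
    rwa [← this])
  simp only [ch_idx] at this
  rw [hV, ch_idx] at this
  exact this

end IsFld

/-- The labels of the dual fields. -/
theorem lab1_dual (β : T → T → Sg → Q) (V w : T) (x : Sg) :
    lab1 (fun V w => β w V) V w x = lab2 β w V x := rfl

theorem lab2_dual (α : T → T → Sg → Q) (V w : T) (x : Sg) :
    lab2 (fun V w => α w V) V w x = lab1 α w V x := rfl

theorem exists_of_unique (p : Sg → Prop) (h : ∀ x x', p x → p x' → x = x') :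
    ∃ a, ∀ x, x ≠ a → ¬ p x := by
  by_cases hp : ∃ a, p a
  · obtain ⟨a, ha⟩ := hp
    exact ⟨a, fun x hx h1 => hx (h x a h1 ha)⟩
  · push Not at hp
    exact ⟨0, fun x _ => hp x⟩

theorem Sg.avoid (a b c d : Sg) : ∃ x : Sg, x ≠ a ∧ x ≠ b ∧ x ≠ c ∧ x ≠ d := by
  decide +revert

theorem uniq_e0 {p : Sg → Q} (h : ∀ x x', SP (p x) → SP (p x') → x = x') :
    ∀ x x', p x = e0 → p x' = e0 → x = x' :=
  fun x x' h1 h2 => h x x' (Or.inr h1) (Or.inr h2)

namespace IsFld

variable {R : Rel K} {F : T → T → Dat K} {α β : T → T → Sg → Q} (h : IsFld R F α β)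
include h

theorem q0 (V w : T) (hs : 0 ≤ lev V + lev w) (x x' : Sg) (h1 : SP (lab2 β V w x))
    (h2 : SP (lab2 β V w x')) : x = x' :=
  h.dual.p0 w V (by rw [add_comm]; exact hs) x x' h1 h2

theorem q3 (V w : T) (hs : 0 ≤ lev V + lev w) (x y : Sg) (h1 : ¬ SP (lab2 β V w y)) :
    (F V w).C x y = ((F V w).S x).2 :=
  h.dual.p3 w V (by rw [add_comm]; exact hs) y x h1

/-- The truth. -/
theorem exists_K0 : ∃ K0 : T → T → K, ∀ V w, 0 ≤ lev V + lev w → ∀ x y,
    ¬ SP (lab1 α V w x) → ¬ SP (lab2 β V w y) →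
      (F V w).C x y = K0 V w ∧ ((F V w).T y).2 = K0 V w ∧ ((F V w).S x).2 = K0 V w := by
  have key : ∀ V w : T, ∃ c : K, 0 ≤ lev V + lev w → ∀ x y,
      ¬ SP (lab1 α V w x) → ¬ SP (lab2 β V w y) →
      (F V w).C x y = c ∧ ((F V w).T y).2 = c ∧ ((F V w).S x).2 = c := by
    intro V w
    by_cases hs : 0 ≤ lev V + lev w
    · obtain ⟨a, ha⟩ := exists_of_unique _ (h.p0 V w hs)
      obtain ⟨b, hb⟩ := exists_of_unique _ (h.q0 V w hs)
      obtain ⟨x0, hx0, hy0, -, -⟩ := Sg.avoid a b a b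
      have hx := ha x0 hx0
      have hy := hb x0 hy0
      refine ⟨(F V w).C x0 x0, fun _ x y h1 h2 => ?_⟩
      have e1 := h.p3 V w hs x y h1
      have e2 := h.p3 V w hs x x0 h1
      have e3 := h.p3 V w hs x0 x0 hx
      have e4 := h.q3 V w hs x y h2
      have e5 := h.q3 V w hs x x0 hy
      have e6 := h.q3 V w hs x0 x0 hy
      refine ⟨?_, ?_, ?_⟩
      · rw [e4, ← e5, e2, ← e3]
      · rw [← e1, e4, ← e5, e2, ← e3]
      · rw [← e4, e4, ← e5, e2, ← e3]
    · exact ⟨(F V w).C 0 0, fun h => absurd h hs⟩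
  choose K0 hK0 using key
  exact ⟨K0, hK0⟩

end IsFld

/-- `K0` is the truth of the fields. -/
def IsK0 (F : T → T → Dat K) (α β : T → T → Sg → Q) (K0 : T → T → K) : Prop :=
  ∀ V w, 0 ≤ lev V + lev w → ∀ x y, ¬ SP (lab1 α V w x) → ¬ SP (lab2 β V w y) →
      (F V w).C x y = K0 V w ∧ ((F V w).T y).2 = K0 V w ∧ ((F V w).S x).2 = K0 V w

theorem IsK0.dual {F : T → T → Dat K} {α β : T → T → Sg → Q} {K0 : T → T → K}
    (h : IsK0 F α β K0) :
    IsK0 (fun V w => (F w V).dual) (fun V w => β w V) (fun V w => α w V) (fun V w => K0 w V) :=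
  fun V w hs x y h1 h2 => by
    obtain ⟨a, b, c⟩ := h w V (by rw [add_comm]; exact hs) y x h2 h1
    exact ⟨a, c, b⟩

namespace IsFld

variable {R : Rel K} {F : T → T → Dat K} {α β : T → T → Sg → Q} (h : IsFld R F α β)
  {K0 : T → T → K} (hK : IsK0 F α β K0)
include h hK

theorem K0_T (V w : T) (hs : 0 ≤ lev V + lev w) (y : Sg) (hy : ¬ SP (lab2 β V w y)) :
    ((F V w).T y).2 = K0 V w := by
  obtain ⟨a, ha⟩ := exists_of_unique _ (h.p0 V w hs)
  obtain ⟨x0, hx0, -, -, -⟩ := Sg.avoid a a a a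
  exact (hK V w hs x0 y (ha x0 hx0) hy).2.1

theorem K0_v2 (V w : T) (hs : 0 ≤ lev V + lev w) : R.v2 (K0 V w) (K0 (up V) w) := by
  have hs' : 0 ≤ lev (up V) + lev w := by rw [lev_up]; omega
  obtain ⟨a, ha⟩ := exists_of_unique _ (uniq_e0 (h.p0 V w hs))
  obtain ⟨b, hb⟩ := exists_of_unique _ (h.q0 V w hs)
  obtain ⟨c, hc⟩ := exists_of_unique _ (h.q0 (up V) w hs')
  obtain ⟨y, hy1, hy2, hy3, -⟩ := Sg.avoid a b c c
  have := (h.p4 V w hs y (ha y hy1)).2
  rwa [h.K0_T hK V w hs y (hb y hy2), h.K0_T hK (up V) w hs' y (hc y hy3)] at this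

theorem K0_s2 (V V' w : T) (hs : 0 ≤ lev V + lev w) (hV : up V = up V') :
    R.s2 (K0 V w) (K0 V' w) := by
  have hl : lev V = lev V' := by
    have h1 := lev_up V
    have h2 := lev_up V'
    rw [hV] at h1
    omega
  have hs' : 0 ≤ lev V' + lev w := by omega
  obtain ⟨a, ha⟩ := exists_of_unique _ (uniq_e0 (h.p0 V w hs))
  obtain ⟨b, hb⟩ := exists_of_unique _ (uniq_e0 (h.p0 V' w hs'))
  obtain ⟨c, hc⟩ := exists_of_unique _ (h.q0 V w hs)
  obtain ⟨d, hd⟩ := exists_of_unique _ (h.q0 V' w hs')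
  obtain ⟨y, hy1, hy2, hy3, hy4⟩ := Sg.avoid a b c d
  have := h.p5 V V' w hs hV y (ha y hy1) (hb y hy2)
  rwa [h.K0_T hK V w hs y (hc y hy3), h.K0_T hK V' w hs' y (hd y hy4)] at this

theorem K0_v1 (V w : T) (hs : 0 ≤ lev V + lev w) : R.v1 (K0 V w) (K0 V (up w)) :=
  h.dual.K0_v2 hK.dual w V (by rw [add_comm]; exact hs)

theorem K0_s1 (V w w' : T) (hs : 0 ≤ lev V + lev w) (hw : up w = up w') :
    R.s1 (K0 V w) (K0 V w') :=
  h.dual.K0_s2 hK.dual w w' V (by rw [add_comm]; exact hs) hw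

end IsFld

end Pool.Agent.H5.LL
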